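import Pool.Agent.Helper75.SR.Goals2

/-!
# MP_d08e19_gt: the goal GFV with the curvature matrix independent of the coefficients
-/

namespace Pool.Agent.Helper75.SR

open scoped ContDiff Topology Manifold Matrix
open Set Real Pool.Agent.Helper54.SRD

/-- `GFV`, with one matrix `Rm` (depending on the chart, the frame and the time only) for all
coefficients `p, f, g`. -/
def GFV2 : Prop :=
  ∀ (E : Type) [NormedAddCommGroup E] [NormedSpace ℝ E] [FiniteDimensional ℝ E]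
    (M : Type) [TopologicalSpace M] [ChartedSpace E M] [IsManifold 𝓘(ℝ, E) ∞ M]
    (S : ASas E M) (β : ℝ) (hβ : 0 ≤ β) (γ : ℝ → M) (τ w t : ℝ) (e : M → ℝ → E),
    IsFrame S β γ τ w e t →
    (∀ (p : ℝ → ℝ) (f g : Fin 3 → ℝ → ℝ), ContDiff ℝ ∞ p → (∀ i, ContDiff ℝ ∞ (f i)) →
      (∀ i, ContDiff ℝ ∞ (g i)) →
      (∀ x : M, γ t ∈ src E x → ContDiffAt ℝ 1 (fV S γ e p f g x) t) ∧
      (∀ x y : M, γ t ∈ src E x → γ t ∈ src E y →
        fV S γ e p f g y t = fderiv ℝ (tr x y) (ch x (γ t)) (fV S γ e p f g x t))) ∧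
    (∀ x : M, γ t ∈ src E x →
      ∃ Rm : Fin 3 → Fin 3 → ℝ, (∀ i j, Rm i j = Rm j i) ∧ ∑ i, Rm i i = 3 ∧
        (∀ K, CurvLE (S.loc x) K (bx E γ x t) → |Rm 0 0| ≤ K) ∧
        ∀ (p : ℝ → ℝ) (f g : Fin 3 → ℝ → ℝ), ContDiff ℝ ∞ p → (∀ i, ContDiff ℝ ∞ (f i)) →
          (∀ i, ContDiff ℝ ∞ (g i)) →
          qv ((S.met β hβ).G x) (S.conn.Γ x) (fun t => (ch x (γ t) : E)) (fV S γ e p f g x) t =
            qq β τ w Rm (p t) (deriv p t) (fun i => f i t) (fun i => deriv (f i) t)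
              (fun i => g i t) (fun i => deriv (g i) t))

/-- `GFV2` implies `GFV`. -/
theorem GFV2.gfv (h : GFV2) : GFV := by
  intro E _ _ _ M _ _ _ S β hβ γ τ w t e p f g hfr hp hf hg
  obtain ⟨h1, h2⟩ := h E M S β hβ γ τ w t e hfr
  refine ⟨(h1 p f g hp hf hg).1, (h1 p f g hp hf hg).2, fun x hx => ?_⟩
  obtain ⟨Rm, hs, ht, hK, hq⟩ := h2 x hx
  exact ⟨Rm, hs, ht, hK, hq p f g hp hf hg⟩

end Pool.Agent.Helper75.SR
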