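import Pool.Agent.Helper41.SR.FVDef
import Pool.Agent.Helper97.SR.GSum
import Pool.Agent.Helper10.SR.One
import Pool.Agent.Helper54.SRD.Basic

/-!
# MP_d08e19_gt: packet SR-GMain
-/

namespace Pool.Agent.Helper41.SR

open scoped ContDiff Topology Manifold Matrix
open Set Real Filter Pool.Agent.Helper54.SRD Pool.Agent.Helper75.SR

section aux

variable {E : Type} [NormedAddCommGroup E] [NormedSpace ℝ E]
variable {M : Type} [TopologicalSpace M] [ChartedSpace E M]

theorem fV_zero (S : ASas E M) (γ : ℝ → M) (e : M → ℝ → E) (p : ℝ → ℝ)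
    (f g : Fin 3 → ℝ → ℝ) (x : M) (t : ℝ) (hp : p t = 0) (hf : ∀ i, f i t = 0)
    (hg : ∀ i, g i t = 0) : fV S γ e p f g x t = 0 := by
  simp [fV, hp, hf, hg]

end aux

/-- The identity matrix. -/
noncomputable def RI : Fin 3 → Fin 3 → ℝ := fun a b => if a = b then 1 else 0

theorem RI_symm (a b : Fin 3) : RI a b = RI b a := by
  unfold RI
  by_cases h : a = b
  · subst h; rfl
  · rw [if_neg h, if_neg (fun h' => h h'.symm)]

theorem RI_trace : ∑ a, RI a a = 3 := by
  simp [RI]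

/-- The sum of the four second variations, for the identity matrix. -/
noncomputable def PhiI (β τ w k : ℝ) (t : ℝ) : ℝ :=
  ∑ i : Fin 4, qq β τ w RI
        (fldP β k w i t) (deriv (fldP β k w i) t)
        (fun a => fldF β k w i a t) (fun a => deriv (fldF β k w i a) t)
        (fun a => fldG β k τ w i a t) (fun a => deriv (fldG β k τ w i a) t)

theorem deriv_shift (f : ℝ → ℝ) (a t : ℝ) : deriv (fun s => f (s - a)) t = deriv f (t - a) :=
  deriv_comp_sub_const f a t

theorem contDiff_shift {f : ℝ → ℝ} (hf : ContDiff ℝ ∞ f) (a : ℝ) :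
    ContDiff ℝ ∞ (fun s => f (s - a)) :=
  hf.comp (contDiff_id.sub contDiff_const)

/-- First inequality. -/
theorem main1
    (hI : ∀ (E : Type) [NormedAddCommGroup E] [NormedSpace ℝ E] [FiniteDimensional ℝ E]
      (M : Type) [TopologicalSpace M] [ChartedSpace E M] [IsManifold 𝓘(ℝ, E) ∞ M], S_INDEX E M)
    (hFV : GFV2) (hInd : GInd) (hEnds : GFldEnds)
    (E : Type) [NormedAddCommGroup E] [NormedSpace ℝ E] [FiniteDimensional ℝ E]
    (M : Type) [TopologicalSpace M] [ChartedSpace E M] [IsManifold 𝓘(ℝ, E) ∞ M]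
    [CompactSpace M] [T2Space M] [ConnectedSpace M]
    (S : ASas E M) (β : ℝ) (hβ : 0 ≤ β) (γ : ℝ → M) (a b τ w : ℝ) (hab : a < b)
    (e : M → ℝ → E) (hfr : ∀ t ∈ Icc a b, IsFrame S β γ τ w e t)
    (hgeo : ∀ t ∈ Icc a b, IsGeo (S.met β hβ) γ t)
    (hlen : b - a ≤ tau (S.met β hβ) (γ a) (γ b)) :
    4 * τ ^ 2 ≤ (2 * π / (b - a)) ^ 2 := by
  set L := b - a with hL
  have hLpos : 0 < L := sub_pos.mpr hab
  set k := 2 * π / L with hk
  have hkpos : 0 < k := by positivity
  have hsum := Pool.Agent.Helper97.SR.gSum β τ w L hLpos (PhiI β τ w k)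
    (fun t => ⟨RI, RI_symm, RI_trace, rfl⟩)
  obtain ⟨hcont, hint⟩ := hsum
  -- the four fields
  let P : Fin 4 → ℝ → ℝ := fun j t => fldP β k w j (t - a)
  let F : Fin 4 → Fin 3 → ℝ → ℝ := fun j i t => fldF β k w j i (t - a)
  let G : Fin 4 → Fin 3 → ℝ → ℝ := fun j i t => fldG β k τ w j i (t - a)
  have hP : ∀ j, ContDiff ℝ ∞ (P j) := fun j => contDiff_shift (hEnds β τ w L hLpos j).1 a
  have hF : ∀ j i, ContDiff ℝ ∞ (F j i) := fun j i =>
    contDiff_shift ((hEnds β τ w L hLpos j).2.1 i) a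
  have hG : ∀ j i, ContDiff ℝ ∞ (G j i) := fun j i =>
    contDiff_shift ((hEnds β τ w L hLpos j).2.2.1 i) a
  have key := hI E M inferInstance inferInstance inferInstance (S.met β hβ) S.conn γ a b 4
    (fun j => fV S γ e (P j) (F j) (G j)) (fun t => PhiI β τ w k (t - a)) hab hgeo hlen
    (fun j t ht => ((hFV E M S β hβ γ τ w t e (hfr t ht)).1 (P j) (F j) (G j)
      (hP j) (hF j) (hG j)).1)
    (fun j t ht => ((hFV E M S β hβ γ τ w t e (hfr t ht)).1 (P j) (F j) (G j)
      (hP j) (hF j) (hG j)).2)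
    (fun j x _ => by
      obtain ⟨-, -, -, ⟨h1, -⟩, h2, h3⟩ := hEnds β τ w L hLpos j
      refine fV_zero S γ e _ _ _ x a ?_ ?_ ?_
      · simp only [P, sub_self]; exact h1
      · intro i; simp only [F, sub_self]; exact (h2 i).1
      · intro i; simp only [G, sub_self]; exact (h3 i).1)
    (fun j x _ => by
      obtain ⟨-, -, -, ⟨-, h1⟩, h2, h3⟩ := hEnds β τ w L hLpos j
      refine fV_zero S γ e _ _ _ x b ?_ ?_ ?_
      · exact h1
      · intro i; exact (h2 i).2
      · intro i; exact (h3 i).2)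
    ((hcont.comp (continuous_id.sub continuous_const)).continuousOn)
    (fun t ht => by
      refine ⟨γ t, mem_src (γ t), ?_⟩
      have hct : ContinuousAt γ t := (hgeo t ht).1
      filter_upwards [hct.eventually_mem (src_mem_nhds (E := E) (γ t))] with t' ht' hmem
      obtain ⟨Rm, hs, htr, -, hq⟩ := (hFV E M S β hβ γ τ w t' e (hfr t' hmem)).2 (γ t) ht'
      refine le_of_eq ?_
      have h1 : ∀ j, qv ((S.met β hβ).G (γ t)) (S.conn.Γ (γ t))
          (fun t_1 => (ch (γ t) (γ t_1) : E)) (fV S γ e (P j) (F j) (G j) (γ t)) t' =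
          qq β τ w Rm (fldP β k w j (t' - a)) (deriv (fldP β k w j) (t' - a))
            (fun i => fldF β k w j i (t' - a)) (fun i => deriv (fldF β k w j i) (t' - a))
            (fun i => fldG β k τ w j i (t' - a)) (fun i => deriv (fldG β k τ w j i) (t' - a)) := by
        intro j
        rw [hq (P j) (F j) (G j) (hP j) (hF j) (hG j)]
        simp only [P, F, G, deriv_shift]
      rw [Finset.sum_congr rfl (fun j _ => h1 j)]
      exact hInd β τ w k (t' - a) Rm RI hs RI_symm (htr.trans RI_trace.symm))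
  have h0 : ∫ t in a..b, PhiI β τ w k (t - a) = ∫ t in (0 : ℝ)..L, PhiI β τ w k t := by
    rw [intervalIntegral.integral_comp_sub_right (fun t => PhiI β τ w k t) a, sub_self]
  rw [h0, hint] at key
  have hv : 0 < (2 * π / L) ^ 2 + 4 * ((1 + β) * w) ^ 2 := by
    have : 0 < (2 * π / L) ^ 2 := by positivity
    positivity
  have h3 : 0 < 3 * L / 2 := by positivity
  by_contra hcon
  push Not at hcon
  have h4 : (2 * π / L) ^ 2 - 4 * τ ^ 2 < 0 := by
    rw [← hk]; linarith
  have h5 : 3 * L / 2 * ((2 * π / L) ^ 2 - 4 * τ ^ 2) < 0 := mul_neg_of_pos_of_neg h3 h4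
  have h6 := mul_neg_of_neg_of_pos h5 hv
  linarith

/-- The matrix with single entry `-K`. -/
noncomputable def RK (K : ℝ) : Fin 3 → Fin 3 → ℝ := fun a b => if a = 0 ∧ b = 0 then -K else 0

/-- Second inequality. -/
theorem main2
    (hI : ∀ (E : Type) [NormedAddCommGroup E] [NormedSpace ℝ E] [FiniteDimensional ℝ E]
      (M : Type) [TopologicalSpace M] [ChartedSpace E M] [IsManifold 𝓘(ℝ, E) ∞ M], S_INDEX E M)
    (hFV : GFV2)
    (E : Type) [NormedAddCommGroup E] [NormedSpace ℝ E] [FiniteDimensional ℝ E]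
    (M : Type) [TopologicalSpace M] [ChartedSpace E M] [IsManifold 𝓘(ℝ, E) ∞ M]
    [CompactSpace M] [T2Space M] [ConnectedSpace M]
    (S : ASas E M) (K : ℝ) (hK : 0 ≤ K)
    (hKM : ∀ p : M, ∃ x : M, p ∈ src E x ∧
      ∀ᶠ q in 𝓝 p, q ∈ src E x ∧ CurvLE (S.loc x) K (ch x q))
    (β : ℝ) (hβ : 0 ≤ β) (γ : ℝ → M) (a b τ w : ℝ) (hab : a < b)
    (e : M → ℝ → E) (hfr : ∀ t ∈ Icc a b, IsFrame S β γ τ w e t)
    (hgeo : ∀ t ∈ Icc a b, IsGeo (S.met β hβ) γ t)
    (hlen : b - a ≤ tau (S.met β hβ) (γ a) (γ b)) :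
    4 * ((1 + β) * w) ^ 2 ≤ (2 * π / (b - a)) ^ 2 + K * τ ^ 2 := by
  set L := b - a with hL
  have hLpos : 0 < L := sub_pos.mpr hab
  set k := 2 * π / L with hk
  have hkpos : 0 < k := by positivity
  set q := L / (2 * π) with hq
  have hkq : k * q = 1 := by
    rw [hk, hq]; field_simp
  set v := (1 + β) * w with hv
  have hkL : k * L = 2 * π := by
    rw [hk]; field_simp
  -- the field
  let P : ℝ → ℝ := fun t => 2 * v * q * (1 - cos (k * (t - a)))
  let F : Fin 3 → ℝ → ℝ := fun i =>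
    ![fun t => sin (k * (t - a)), fun _ => 0, fun _ => 0] i
  let G : Fin 3 → ℝ → ℝ := fun i =>
    ![fun t => -2 * τ * q * (1 - cos (k * (t - a))), fun _ => 0, fun _ => 0] i
  have harg : ContDiff ℝ ∞ (fun t : ℝ => k * (t - a)) :=
    contDiff_const.mul (contDiff_id.sub contDiff_const)
  have hcosd : ContDiff ℝ ∞ (fun t : ℝ => cos (k * (t - a))) := Real.contDiff_cos.comp harg
  have hsind : ContDiff ℝ ∞ (fun t : ℝ => sin (k * (t - a))) := Real.contDiff_sin.comp harg
  have hP : ContDiff ℝ ∞ P := contDiff_const.mul (contDiff_const.sub hcosd)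
  have hF : ∀ i, ContDiff ℝ ∞ (F i) := by
    intro i
    fin_cases i
    · exact hsind
    · exact contDiff_const
    · exact contDiff_const
  have hG : ∀ i, ContDiff ℝ ∞ (G i) := by
    intro i
    fin_cases i
    · exact contDiff_const.mul (contDiff_const.sub hcosd)
    · exact contDiff_const
    · exact contDiff_const
  have hdarg : ∀ t : ℝ, HasDerivAt (fun t : ℝ => k * (t - a)) k t := by
    intro t
    simpa using ((hasDerivAt_id t).sub_const a).const_mul k
  have hdcos : ∀ t : ℝ, HasDerivAt (fun t : ℝ => 1 - cos (k * (t - a)))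
      (k * sin (k * (t - a))) t := by
    intro t
    have := ((hdarg t).cos).const_sub 1
    refine this.congr_deriv ?_
    ring
  have hdP : ∀ t, deriv P t = 2 * v * sin (k * (t - a)) := by
    intro t
    have := ((hdcos t).const_mul (2 * v * q)).deriv
    show deriv (fun t => 2 * v * q * (1 - cos (k * (t - a)))) t = _
    rw [this]
    linear_combination (2 * v * sin (k * (t - a))) * hkq
  have hfF : ∀ t, (fun i => F i t) = ![sin (k * (t - a)), 0, 0] := by
    intro t
    funext i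
    fin_cases i <;> rfl
  have hfG : ∀ t, (fun i => G i t) = ![-2 * τ * q * (1 - cos (k * (t - a))), 0, 0] := by
    intro t
    funext i
    fin_cases i <;> rfl
  have hdF : ∀ t, (fun i => deriv (F i) t) = ![k * cos (k * (t - a)), 0, 0] := by
    intro t
    funext i
    fin_cases i
    · show deriv (fun t => sin (k * (t - a))) t = k * cos (k * (t - a))
      rw [((hdarg t).sin).deriv]
      ring
    · show deriv (fun _ => (0 : ℝ)) t = 0
      simp
    · show deriv (fun _ => (0 : ℝ)) t = 0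
      simp
  have hdG : ∀ t, (fun i => deriv (G i) t) = ![-2 * τ * sin (k * (t - a)), 0, 0] := by
    intro t
    funext i
    fin_cases i
    · show deriv (fun t => -2 * τ * q * (1 - cos (k * (t - a)))) t = -2 * τ * sin (k * (t - a))
      rw [((hdcos t).const_mul (-2 * τ * q)).deriv]
      linear_combination (-2 * τ * sin (k * (t - a))) * hkq
    · show deriv (fun _ => (0 : ℝ)) t = 0
      simp
    · show deriv (fun _ => (0 : ℝ)) t = 0
      simp
  -- the bound of the integrand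
  let Φ : ℝ → ℝ := fun t => qq β τ w (RK K) (2 * v * q * (1 - cos (k * t)))
    (2 * v * sin (k * t)) ![sin (k * t), 0, 0] ![k * cos (k * t), 0, 0]
    ![-2 * τ * q * (1 - cos (k * t)), 0, 0] ![-2 * τ * sin (k * t), 0, 0]
  have hqq : ∀ (Rm : Fin 3 → Fin 3 → ℝ) (t : ℝ), qq β τ w Rm (2 * v * q * (1 - cos (k * t)))
      (2 * v * sin (k * t)) ![sin (k * t), 0, 0] ![k * cos (k * t), 0, 0]
      ![-2 * τ * q * (1 - cos (k * t)), 0, 0] ![-2 * τ * sin (k * t), 0, 0] =
      k ^ 2 * cos (k * t) ^ 2 + (1 - Rm 0 0) * τ ^ 2 * sin (k * t) ^ 2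
      + (4 * ((1 + β) * w) ^ 2 + 4 * τ ^ 2) * (cos (k * t) - cos (k * t) ^ 2) := by
    intro Rm t
    exact Pool.Agent.Helper10.SR.qq_one β τ w k q (sin (k * t)) (cos (k * t)) hkq Rm
  have hΦ : Φ = fun t => k ^ 2 * cos (k * t) ^ 2 + (1 + K) * τ ^ 2 * sin (k * t) ^ 2
      + (4 * ((1 + β) * w) ^ 2 + 4 * τ ^ 2) * (cos (k * t) - cos (k * t) ^ 2) := by
    funext t
    show qq β τ w (RK K) _ _ _ _ _ _ = _
    rw [hqq (RK K) t]
    simp [RK]
  have hΦc : Continuous Φ := by
    rw [hΦ]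
    fun_prop
  have key := hI E M inferInstance inferInstance inferInstance (S.met β hβ) S.conn γ a b 1
    (fun _ => fV S γ e P F G) (fun t => Φ (t - a)) hab hgeo hlen
    (fun j t ht => ((hFV E M S β hβ γ τ w t e (hfr t ht)).1 P F G hP hF hG).1)
    (fun j t ht => ((hFV E M S β hβ γ τ w t e (hfr t ht)).1 P F G hP hF hG).2)
    (fun j x _ => by
      refine fV_zero S γ e _ _ _ x a ?_ ?_ ?_
      · simp [P]
      · intro i; fin_cases i <;> simp [F]
      · intro i; fin_cases i <;> simp [G])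
    (fun j x _ => by
      refine fV_zero S γ e _ _ _ x b ?_ ?_ ?_
      · simp [P, ← hL, hkL]
      · intro i; fin_cases i <;> simp [F, ← hL, hkL]
      · intro i; fin_cases i <;> simp [G, ← hL, hkL])
    ((hΦc.comp (continuous_id.sub continuous_const)).continuousOn)
    (fun t ht => by
      obtain ⟨x, hx, hev⟩ := hKM (γ t)
      refine ⟨x, hx, ?_⟩
      have hct : ContinuousAt γ t := (hgeo t ht).1
      filter_upwards [hct.eventually hev] with t' ht' hmem
      obtain ⟨Rm, hs, htr, hKR, hqv⟩ := (hFV E M S β hβ γ τ w t' e (hfr t' hmem)).2 x ht'.1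
      have hR := abs_le.mp (hKR K ht'.2)
      rw [Fin.sum_univ_one, hqv P F G hP hF hG, hdP, hfF, hfG, hdF, hdG]
      show qq β τ w Rm (2 * v * q * (1 - cos (k * (t' - a)))) _ _ _ _ _ ≤ Φ (t' - a)
      rw [hqq Rm (t' - a), hΦ]
      have : 0 ≤ (K + Rm 0 0) * (τ ^ 2 * sin (k * (t' - a)) ^ 2) :=
        mul_nonneg (by linarith [hR.1]) (by positivity)
      simp only
      nlinarith [this])
  have h0 : ∫ t in a..b, Φ (t - a) = ∫ t in (0 : ℝ)..L, Φ t := by
    rw [intervalIntegral.integral_comp_sub_right (fun t => Φ t) a, sub_self]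
  rw [h0] at key
  have hgone := Pool.Agent.Helper10.SR.gone β τ w L K hLpos hK Φ
    (hΦc.intervalIntegrable 0 L) (fun t => ⟨RK K, by simp [RK, abs_of_nonneg hK], rfl⟩)
  have h1 : 0 ≤ (L / 2) * ((2 * π / L) ^ 2 - 4 * ((1 + β) * w) ^ 2 + K * τ ^ 2) :=
    key.trans hgone
  have h2 : 0 ≤ (2 * π / L) ^ 2 - 4 * ((1 + β) * w) ^ 2 + K * τ ^ 2 := by
    by_contra hcon
    push Not at hcon
    have := mul_neg_of_pos_of_neg (show 0 < L / 2 by positivity) hcon
    linarith
  rw [← hk, ← hv] at h2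
  linarith

/-- Packet SR-GMain. -/
theorem gMain
    (hI : ∀ (E : Type) [NormedAddCommGroup E] [NormedSpace ℝ E] [FiniteDimensional ℝ E]
      (M : Type) [TopologicalSpace M] [ChartedSpace E M] [IsManifold 𝓘(ℝ, E) ∞ M], S_INDEX E M)
    (hFV : GFV2) (hEF : GEF) (hInd : GInd) (hEnds : GFldEnds) : GMain := by
  intro E _ _ _ M _ _ _ _ _ _ S K hK hKM β hβ γ a b τ w hab hτ hτw hW hgeo hlen
  have hfr := hEF E M S β γ a b τ w hβ hτ hτw hW
  exact ⟨main1 hI hFV hInd hEnds E M S β hβ γ a b τ w hab _ hfr hgeo hlen,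
    main2 hI hFV E M S K hK hKM β hβ γ a b τ w hab _ hfr hgeo hlen⟩

end Pool.Agent.Helper41.SR

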